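import Mathlib

/-!
Blocking `(2,2)`-acceptable Hamilton paths with fewer than `C(n-2,2)` four-element sets:
possible for `n = 6` and for `n = 7`.
-/

namespace Pool.Agent.Results.MP_716318_co.SixAndSeven

open Finset

/-- The Hamilton path `v 0, v 1, …, v (n-1)` of the complete graph on `Fin n` (an ordering of all
vertices) is `(2,2)`-acceptable with respect to `F`: no two vertex-disjoint edges
`{v i, v (i+1)}` and `{v j, v (j+1)}`, `i + 1 < j`, of it have their union in `F`. -/
def Acceptable {n : ℕ} (F : Finset (Finset (Fin n))) (v : Equiv.Perm (Fin n)) : Prop :=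
  ∀ i j : ℕ, ∀ hi : i + 1 < j, ∀ hj : j + 1 < n,
    ({v ⟨i, by omega⟩, v ⟨i + 1, by omega⟩, v ⟨j, by omega⟩, v ⟨j + 1, hj⟩} : Finset (Fin n)) ∉ F

/-- The family `F` consists of four-element sets and no Hamilton path is acceptable. -/
def Blocks {n : ℕ} (F : Finset (Finset (Fin n))) : Prop :=
  (∀ S ∈ F, S.card = 4) ∧ ∀ v : Equiv.Perm (Fin n), ¬ Acceptable F v

/-- All four-element sets avoiding the vertex `5` of `Fin 6`. -/
def F6 : Finset (Finset (Fin 6)) :=
  (univ : Finset (Finset (Fin 6))).filter (fun S => S.card = 4 ∧ (5 : Fin 6) ∉ S)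

/-- The label of a vertex of `Fin 7`: `0` for `0,1,2`, `1` for `3,4,5`, and `2` for `6`. -/
def lab (x : Fin 7) : Fin 3 := if x.val < 3 then 0 else if x.val < 6 then 1 else 2

/-- The sets with two points in `{0,1,2}` and two points in `{3,4,5}`. -/
def F7 : Finset (Finset (Fin 7)) :=
  (univ : Finset (Finset (Fin 7))).filter
    (fun S => (S.filter (fun x => lab x = 0)).card = 2 ∧ (S.filter (fun x => lab x = 1)).card = 2 ∧
      (S.filter (fun x => lab x = 2)).card = 0)

lemma F6_card : F6.card = 5 := by decide +kernel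

lemma F7_card : F7.card = 9 := by decide +kernel

lemma F7_four : ∀ S ∈ F7, S.card = 4 := by decide +kernel

lemma card_four {n : ℕ} (v : Equiv.Perm (Fin n)) {a b c d : Fin n} (hab : a ≠ b) (hac : a ≠ c)
    (had : a ≠ d) (hbc : b ≠ c) (hbd : b ≠ d) (hcd : c ≠ d) :
    ({v a, v b, v c, v d} : Finset (Fin n)).card = 4 := by
  rw [card_insert_of_notMem, card_insert_of_notMem, card_insert_of_notMem, card_singleton]
  · rw [mem_singleton]; exact fun h => hcd (v.injective h)
  · simp only [mem_insert, mem_singleton, not_or]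
    exact ⟨fun h => hbc (v.injective h), fun h => hbd (v.injective h)⟩
  · simp only [mem_insert, mem_singleton, not_or]
    exact ⟨fun h => hab (v.injective h), fun h => hac (v.injective h),
      fun h => had (v.injective h)⟩

/-- Six vertices. -/
lemma blocks6 : Blocks F6 := by
  refine ⟨fun S hS => (mem_filter.1 hS).2.1, fun v hv => ?_⟩
  -- the position of the vertex 5
  have key : ∀ p : Fin 6, ∃ i j : Fin 6, ∃ hi : i.val + 1 < j.val, ∃ hj : j.val + 1 < 6,
      p ≠ i ∧ p ≠ ⟨i.val + 1, by omega⟩ ∧ p ≠ j ∧ p ≠ ⟨j.val + 1, hj⟩ := by decide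
  obtain ⟨i, j, hi, hj, h1, h2, h3, h4⟩ := key (v.symm 5)
  refine hv i.val j.val hi hj ?_
  rw [F6, mem_filter]
  refine ⟨mem_univ _, card_four v ?_ ?_ ?_ ?_ ?_ ?_, ?_⟩
  · rw [Ne, Fin.ext_iff]; simp
  · rw [Ne, Fin.ext_iff]; simp only; omega
  · rw [Ne, Fin.ext_iff]; simp only; omega
  · rw [Ne, Fin.ext_iff]; simp only; omega
  · rw [Ne, Fin.ext_iff]; simp only; omega
  · rw [Ne, Fin.ext_iff]; simp
  · simp only [mem_insert, mem_singleton, not_or]
    refine ⟨fun h => h1 ?_, fun h => h2 ?_, fun h => h3 ?_, fun h => h4 ?_⟩ <;>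
      rw [h, Equiv.symm_apply_apply]

/-- The labels along a path with seven vertices. -/
lemma words : ∀ w : Fin 7 → Fin 3,
    (univ.filter (fun i => w i = 0)).card = 3 → (univ.filter (fun i => w i = 1)).card = 3 →
      (univ.filter (fun i => w i = 2)).card = 1 →
    ∃ i j : Fin 7, ∃ _ : i.val + 1 < j.val, ∃ hj : j.val + 1 < 7,
      (({i, ⟨i.val + 1, by omega⟩, j, ⟨j.val + 1, hj⟩} : Finset (Fin 7)).filter
          (fun x => w x = 0)).card = 2 ∧
        (({i, ⟨i.val + 1, by omega⟩, j, ⟨j.val + 1, hj⟩} : Finset (Fin 7)).filter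
          (fun x => w x = 1)).card = 2 ∧
        (({i, ⟨i.val + 1, by omega⟩, j, ⟨j.val + 1, hj⟩} : Finset (Fin 7)).filter
          (fun x => w x = 2)).card = 0 := by
  decide +kernel

/-- Seven vertices. -/
lemma blocks7 : Blocks F7 := by
  refine ⟨F7_four, fun v hv => ?_⟩
  have hcount : ∀ c : Fin 3, (univ.filter (fun i => lab (v i) = c)).card
      = (univ.filter (fun x => lab x = c)).card := by
    intro c
    rw [← card_image_of_injective _ v.injective]
    congr 1
    ext x
    simp only [mem_image, mem_filter, mem_univ, true_and]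
    constructor
    · rintro ⟨i, hi, rfl⟩; exact hi
    · intro hx
      exact ⟨v.symm x, by rw [Equiv.apply_symm_apply]; exact hx, Equiv.apply_symm_apply _ _⟩
  obtain ⟨i, j, hi, hj, h0, h1, h2⟩ := words (fun i => lab (v i))
    (by rw [hcount]; decide) (by rw [hcount]; decide) (by rw [hcount]; decide)
  refine hv i.val j.val hi hj ?_
  have him : ({v i, v ⟨i.val + 1, by omega⟩, v j, v ⟨j.val + 1, hj⟩} : Finset (Fin 7))
      = ({i, ⟨i.val + 1, by omega⟩, j, ⟨j.val + 1, hj⟩} : Finset (Fin 7)).image v := by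
    simp only [image_insert, image_singleton]
  have hfil : ∀ c : Fin 3,
      ((({i, ⟨i.val + 1, by omega⟩, j, ⟨j.val + 1, hj⟩} : Finset (Fin 7)).image v).filter
        (fun x => lab x = c)).card
      = (({i, ⟨i.val + 1, by omega⟩, j, ⟨j.val + 1, hj⟩} : Finset (Fin 7)).filter
        (fun x => lab (v x) = c)).card := by
    intro c
    rw [filter_image, card_image_of_injective _ v.injective]
  rw [F7, mem_filter]
  refine ⟨mem_univ _, ?_⟩
  change (filter (fun x => lab x = 0)
    ({v i, v ⟨i.val + 1, _⟩, v j, v ⟨j.val + 1, _⟩} : Finset (Fin 7))).card = 2 ∧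
    (filter (fun x => lab x = 1)
    ({v i, v ⟨i.val + 1, _⟩, v j, v ⟨j.val + 1, _⟩} : Finset (Fin 7))).card = 2 ∧
    (filter (fun x => lab x = 2)
    ({v i, v ⟨i.val + 1, _⟩, v j, v ⟨j.val + 1, _⟩} : Finset (Fin 7))).card = 0
  rw [him, hfil, hfil, hfil]
  exact ⟨h0, h1, h2⟩

/-- **Main theorem.** On six vertices a family of `5 < C(4,2) = 6` four-element sets, and on seven
vertices a family of `9 < C(5,2) = 10` four-element sets, leaves no `(2,2)`-acceptable Hamilton
path. In particular the statement of the question fails. -/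
theorem result :
    (∃ F : Finset (Finset (Fin 6)), F.card = 5 ∧ Blocks F) ∧
    (∃ F : Finset (Finset (Fin 7)), F.card = 9 ∧ Blocks F) ∧
    ¬ (∀ n : ℕ, 4 ≤ n → ∀ F : Finset (Finset (Fin n)), (∀ S ∈ F, S.card = 4) →
      F.card < (n - 2).choose 2 → ∃ v : Equiv.Perm (Fin n), Acceptable F v) := by
  refine ⟨⟨F6, F6_card, blocks6⟩, ⟨F7, F7_card, blocks7⟩, fun h => ?_⟩
  obtain ⟨v, hv⟩ := h 7 (by norm_num) F7 F7_four (by rw [F7_card]; decide)
  exact blocks7.2 v hv

end Pool.Agent.Results.MP_716318_co.SixAndSeven
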